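import Pool.Agent.Q63.RF.St

/-!
# Project RF (helper63), job RF-MEAS (helper151)
-/

set_option autoImplicit false
set_option linter.all false

namespace Pool.Agent.Q151.RF

open MeasureTheory ProbabilityTheory Filter Topology Pool.Agent.Q63.RF
open scoped ENNReal NNReal

theorem bern_true (ε : ℝ≥0) : bern ε {true} = ε := by
  unfold bern
  simp

theorem bern_false (ε : ℝ≥0) : bern ε {false} = ((1 - ε : ℝ≥0) : ℝ≥0∞) := by
  unfold bern
  simp

theorem bern_prob {ε : ℝ≥0} (h : ε ≤ 1) : IsProbabilityMeasure (bern ε) := by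
  refine ⟨?_⟩
  unfold bern
  simp only [Measure.coe_add, Measure.coe_smul, Pi.add_apply, Pi.smul_apply, measure_univ,
    smul_eq_mul, mul_one]
  rw [← ENNReal.coe_add, add_tsub_cancel_of_le h, ENNReal.coe_one]

theorem coin_prob : IsProbabilityMeasure coin := by
  refine ⟨?_⟩
  unfold coin
  simp only [Measure.coe_add, Measure.coe_smul, Pi.add_apply, Pi.smul_apply, measure_univ,
    smul_eq_mul, mul_one]
  exact ENNReal.inv_two_add_inv_two

theorem msc : MeasurableSingletonClass ℤˣ := by
  refine ⟨fun x => ?_⟩
  refine ⟨{(x : ℤ)}, MeasurableSet.of_discrete, ?_⟩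
  ext y
  simp [Units.ext_iff]

theorem coin_map (χ₀ : ℤˣ) : MeasurePreserving (fun σ : ℤˣ => σ * χ₀) coin coin := by
  haveI := msc
  have hm : Measurable (fun σ : ℤˣ => σ * χ₀) := measurable_of_countable _
  refine ⟨hm, ?_⟩
  unfold coin
  rw [Measure.map_add _ _ hm, Measure.map_smul, Measure.map_smul, Measure.map_dirac' hm,
    Measure.map_dirac' hm]
  rcases Int.units_eq_one_or χ₀ with h | h
  · rw [h]
    simp
  · rw [h, one_mul, show (-1 : ℤˣ) * -1 = 1 by decide, add_comm]

theorem meas : Pool.Agent.Q63.RF.S_MEAS := by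
  intro d ε hε
  haveI : IsProbabilityMeasure (bern ε) := bern_prob hε
  haveI := coin_prob
  refine ⟨?_, fun χ₀ e => ?_, fun F₁ F₀ hd => ?_⟩
  · unfold PP
    infer_instance
  · have h2 : MeasurePreserving (fun (f : FG d → Bool) β => f (e β))
        (Measure.infinitePi fun _ : FG d => bern ε) (Measure.infinitePi fun _ : FG d => bern ε) := by
      have h3 := Measure.infinitePi_map_piCongrLeft (fun _ : FG d => bern ε) e.symm
      refine ⟨measurable_pi_lambda _ fun β => measurable_pi_apply _, ?_⟩
      refine Eq.trans ?_ h3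
      congr 1
      funext f β
      rw [MeasurableEquiv.coe_piCongrLeft]
      have h4 := Equiv.piCongrLeft_apply_apply (fun _ : FG d => Bool) e.symm f (e β)
      rw [Equiv.symm_apply_apply] at h4
      exact h4.symm
    exact (coin_map χ₀).prod h2
  · classical
    have h1 : {ω : Om d | (∀ β ∈ F₁, ω.2 β = true) ∧ ∀ β ∈ F₀, ω.2 β = false} =
        Set.univ ×ˢ (Set.pi ((F₁ ∪ F₀ : Finset (FG d)) : Set (FG d))
          (fun β => if β ∈ F₁ then {true} else {false})) := by
      ext ω
      simp only [Set.mem_setOf_eq, Set.mem_prod, Set.mem_univ, true_and, Set.mem_pi,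
        Finset.coe_union, Set.mem_union, Finset.mem_coe]
      constructor
      · rintro ⟨h1, h2⟩ β hβ
        rcases hβ with hβ | hβ
        · rw [if_pos hβ]
          exact h1 β hβ
        · rw [if_neg (fun h => (Finset.disjoint_left.1 hd) h hβ)]
          exact h2 β hβ
      · intro h
        refine ⟨fun β hβ => ?_, fun β hβ => ?_⟩
        · have h2 := h β (Or.inl hβ)
          rw [if_pos hβ] at h2
          exact h2
        · have h2 := h β (Or.inr hβ)
          rw [if_neg (fun h => (Finset.disjoint_left.1 hd) h hβ)] at h2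
          exact h2
    unfold PP
    rw [h1, Measure.prod_prod, measure_univ, one_mul,
      Measure.infinitePi_pi _ (fun i _ => by split_ifs <;> exact MeasurableSet.of_discrete),
      Finset.prod_union hd]
    rw [Finset.prod_congr rfl fun β hβ => by rw [if_pos hβ, bern_true],
      Finset.prod_congr (s₁ := F₀) rfl fun β hβ => by
        rw [if_neg (fun h => (Finset.disjoint_left.1 hd) h hβ), bern_false],
      Finset.prod_const, Finset.prod_const]
    push_cast
    rfl

end Pool.Agent.Q151.RF
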