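import Pool.Agent.Q63.RF.St

/-!
# Project RF (helper63), job RF-POIS (helper151)
-/

set_option autoImplicit false
set_option linter.all false

namespace Pool.Agent.Q151.RF

open MeasureTheory ProbabilityTheory Filter Topology Pool.Agent.Q63.RF
open scoped ENNReal NNReal

theorem tsum_pw (Λ : ℝ≥0) {t : ℝ} (ht : 0 ≤ t) : ∑' N : ℕ, pw Λ t N = 1 := by
  have hx : (0 : ℝ) ≤ (Λ : ℝ) * t := mul_nonneg Λ.2 ht
  have h := ProbabilityTheory.hasSum_one_poissonMeasure ⟨(Λ : ℝ) * t, hx⟩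
  have h0 : ∀ n, 0 ≤ Real.exp (-((Λ : ℝ) * t)) * ((Λ : ℝ) * t) ^ n / n.factorial := fun n => by
    positivity
  unfold pw
  rw [← ENNReal.ofReal_tsum_of_nonneg h0 h.summable]
  have h2 := h.tsum_eq
  have h3 : (∑' n : ℕ, Real.exp (-((Λ : ℝ) * t)) * ((Λ : ℝ) * t) ^ n / n.factorial) = 1 := h2
  rw [h3, ENNReal.ofReal_one]

theorem tsum_pw_mul (Λ : ℝ≥0) {t : ℝ} (ht : 0 ≤ t) :
    ∑' N : ℕ, pw Λ t N * N = ENNReal.ofReal (Λ * t) := by
  have hx : (0 : ℝ) ≤ (Λ : ℝ) * t := mul_nonneg Λ.2 ht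
  rw [tsum_eq_zero_add' ENNReal.summable]
  have e : ∀ N : ℕ, pw Λ t (N + 1) * ((N + 1 : ℕ) : ℝ≥0∞) = ENNReal.ofReal (Λ * t) * pw Λ t N := by
    intro N
    unfold pw
    rw [← ENNReal.ofReal_mul hx, ← ENNReal.ofReal_natCast, ← ENNReal.ofReal_mul (by positivity)]
    congr 1
    rw [Nat.factorial_succ]
    push_cast
    field_simp
    ring
  rw [tsum_congr e, ENNReal.tsum_mul_left, tsum_pw Λ ht]
  simp

theorem pois : Pool.Agent.Q63.RF.S_POIS := by
  intro u s Λ hΛ hu hs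
  have hs1 : s ≤ 1 := by
    refine le_of_tendsto hs (Eventually.of_forall fun N => ?_)
    exact ENNReal.div_le_of_le_mul (by rw [one_mul]; exact hu N)
  have hst : s ≠ ∞ := ne_top_of_le_ne_top ENNReal.one_ne_top hs1
  have hΛ0 : (Λ : ℝ≥0∞) ≠ 0 := by exact_mod_cast hΛ.ne'
  have hΛs : (Λ : ℝ≥0∞) * s ≠ ∞ := ENNReal.mul_ne_top ENNReal.coe_ne_top hst
  -- linear bounds
  have hlin : ∀ δ : ℝ≥0∞, 0 < δ → ∃ C : ℕ, (∀ N : ℕ, u N ≤ (s + δ) * N + C) ∧
      ∀ N : ℕ, s * N ≤ u N + δ * N + C := by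
    intro δ hδ
    have h1 := (ENNReal.tendsto_nhds hst).1 hs δ hδ
    obtain ⟨C, hC⟩ := eventually_atTop.1 h1
    have hbig : ∀ N : ℕ, C + 1 ≤ N → u N ≤ (s + δ) * N ∧ s * N ≤ u N + δ * N := by
      intro N hN
      have h2 := hC N (by omega)
      have hN0 : (N : ℝ≥0∞) ≠ 0 := by
        have : N ≠ 0 := by omega
        exact_mod_cast this
      have hNt : (N : ℝ≥0∞) ≠ ∞ := ENNReal.natCast_ne_top N
      constructor
      · exact (ENNReal.div_le_iff hN0 hNt).1 h2.2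
      · have h3 : s ≤ u N / N + δ := tsub_le_iff_right.1 h2.1
        calc s * N ≤ (u N / N + δ) * N := by gcongr
          _ = u N + δ * N := by rw [add_mul, ENNReal.div_mul_cancel hN0 hNt]
    refine ⟨C + 1, fun N => ?_, fun N => ?_⟩
    · rcases Nat.lt_or_ge N (C + 1) with h | h
      · have h3 : (N : ℝ≥0∞) ≤ ((C + 1 : ℕ) : ℝ≥0∞) := by exact_mod_cast h.le
        exact (hu N).trans (h3.trans le_add_self)
      · exact (hbig N h).1.trans le_self_add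
    · rcases Nat.lt_or_ge N (C + 1) with h | h
      · have h3 : (N : ℝ≥0∞) ≤ ((C + 1 : ℕ) : ℝ≥0∞) := by exact_mod_cast h.le
        calc s * N ≤ 1 * N := by gcongr
          _ = N := one_mul _
          _ ≤ _ := h3.trans le_add_self
      · exact (hbig N h).2.trans le_self_add
  refine (ENNReal.tendsto_nhds hΛs).2 fun ε hε => ?_
  rcases eq_or_ne ε ∞ with hεt | hεt
  · refine Eventually.of_forall fun t => ?_
    rw [hεt]
    simp
  -- choice of `δ`
  obtain ⟨δ, hδ0, hδ⟩ : ∃ δ : ℝ≥0∞, 0 < δ ∧ δ * Λ = ε / 2 := by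
    refine ⟨ε / 2 / Λ, ENNReal.div_pos (ENNReal.half_pos hε.ne').ne' ENNReal.coe_ne_top, ?_⟩
    exact ENNReal.div_mul_cancel hΛ0 ENNReal.coe_ne_top
  obtain ⟨C, hC1, hC2⟩ := hlin δ hδ0
  have hCt : Tendsto (fun t : ℝ => (C : ℝ≥0∞) / ENNReal.ofReal t) atTop (𝓝 0) := by
    have h1 : Tendsto (fun t : ℝ => ENNReal.ofReal t) atTop (𝓝 ∞) := ENNReal.tendsto_ofReal_atTop
    have h2 := ENNReal.Tendsto.const_div (a := (C : ℝ≥0∞)) h1 (Or.inr (ENNReal.natCast_ne_top C))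
    rwa [ENNReal.div_top] at h2
  have hCe : ∀ᶠ t : ℝ in atTop, (C : ℝ≥0∞) / ENNReal.ofReal t ≤ ε / 2 :=
    hCt.eventually_le_const (ENNReal.half_pos hε.ne')
  filter_upwards [hCe, eventually_gt_atTop (0 : ℝ)] with t hCt' ht
  have ht0 : ENNReal.ofReal t ≠ 0 := (ENNReal.ofReal_pos.2 ht).ne'
  have htt : ENNReal.ofReal t ≠ ∞ := ENNReal.ofReal_ne_top
  have hΛt : ENNReal.ofReal ((Λ : ℝ) * t) = Λ * ENNReal.ofReal t := by
    rw [ENNReal.ofReal_mul (NNReal.coe_nonneg Λ), ENNReal.ofReal_coe_nnreal]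
  have hsum1 : ∑' N : ℕ, pw Λ t N * u N ≤ (s + δ) * (Λ * ENNReal.ofReal t) + C := by
    calc ∑' N : ℕ, pw Λ t N * u N ≤ ∑' N : ℕ, ((s + δ) * (pw Λ t N * N) + C * pw Λ t N) := by
          refine ENNReal.tsum_le_tsum fun N => ?_
          calc pw Λ t N * u N ≤ pw Λ t N * ((s + δ) * N + C) := by gcongr; exact hC1 N
            _ = _ := by ring
      _ = _ := by
        rw [ENNReal.tsum_add, ENNReal.tsum_mul_left, ENNReal.tsum_mul_left, tsum_pw Λ ht.le,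
          tsum_pw_mul Λ ht.le, hΛt, mul_one]
  have hsum2 : s * (Λ * ENNReal.ofReal t) ≤ ∑' N : ℕ, pw Λ t N * u N +
      (δ * (Λ * ENNReal.ofReal t) + C) := by
    calc s * (Λ * ENNReal.ofReal t) = ∑' N : ℕ, s * (pw Λ t N * N) := by
          rw [ENNReal.tsum_mul_left, tsum_pw_mul Λ ht.le, hΛt]
      _ ≤ ∑' N : ℕ, (pw Λ t N * u N + (δ * (pw Λ t N * N) + C * pw Λ t N)) := by
          refine ENNReal.tsum_le_tsum fun N => ?_
          calc s * (pw Λ t N * N) = pw Λ t N * (s * N) := by ring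
            _ ≤ pw Λ t N * (u N + δ * N + C) := by gcongr; exact hC2 N
            _ = _ := by ring
      _ = _ := by
        rw [ENNReal.tsum_add, ENNReal.tsum_add, ENNReal.tsum_mul_left, ENNReal.tsum_mul_left,
          tsum_pw Λ ht.le, tsum_pw_mul Λ ht.le, hΛt, mul_one]
  have hcancel : ∀ x : ℝ≥0∞, x * ENNReal.ofReal t / ENNReal.ofReal t = x := fun x =>
    ENNReal.mul_div_cancel_right ht0 htt
  constructor
  · rw [tsub_le_iff_right]
    calc (Λ : ℝ≥0∞) * s = s * (Λ * ENNReal.ofReal t) / ENNReal.ofReal t := by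
          rw [← mul_assoc, hcancel, mul_comm]
      _ ≤ (∑' N : ℕ, pw Λ t N * u N + (δ * (Λ * ENNReal.ofReal t) + C)) / ENNReal.ofReal t := by
          gcongr
      _ = (∑' N : ℕ, pw Λ t N * u N) / ENNReal.ofReal t + (δ * Λ + C / ENNReal.ofReal t) := by
          rw [ENNReal.add_div, ENNReal.add_div, ← mul_assoc δ, hcancel]
      _ ≤ (∑' N : ℕ, pw Λ t N * u N) / ENNReal.ofReal t + (ε / 2 + ε / 2) := by
          rw [hδ]
          gcongr
      _ = _ := by rw [ENNReal.add_halves]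
  · calc (∑' N : ℕ, pw Λ t N * u N) / ENNReal.ofReal t ≤
          ((s + δ) * (Λ * ENNReal.ofReal t) + C) / ENNReal.ofReal t := by gcongr
      _ = (s + δ) * Λ + C / ENNReal.ofReal t := by
          rw [ENNReal.add_div, ← mul_assoc, hcancel]
      _ ≤ (s + δ) * Λ + ε / 2 := by gcongr
      _ = Λ * s + (ε / 2 + ε / 2) := by rw [add_mul, hδ, add_assoc, mul_comm s]
      _ = _ := by rw [ENNReal.add_halves]

end Pool.Agent.Q151.RF
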